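import Pool.Agent.Helper22.LR.Main

/-! # No countable closed set separates a continuum with a free action of `ℤ_p` -/

set_option autoImplicit false

namespace Pool.Agent.Helper22.LR
open Set

/-- **no countable closed set separates** a continuum with an action of `ℤ_p` all of whose orbits
are infinite -/
theorem no_countable_separator {A : Type*} [TopologicalSpace A] [T2Space A] [CompactSpace A]
    [PreconnectedSpace A] {p : ℕ} [Fact p.Prime] (T : ℤ_[p] → A → A)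
    (hT : Continuous fun q : ℤ_[p] × A => T q.1 q.2) (h0 : ∀ x, T 0 x = x)
    (hadd : ∀ a b x, T (a + b) x = T a (T b x)) (hfree : ∀ x, ∀ a, a ≠ 0 → T a x ≠ x)
    {B : Set A} (hBc : IsClosed B) (hB : B.Countable) : IsPreconnected Bᶜ := by
  intro P Q hP hQ hcov ⟨x, hxB, hxP⟩ ⟨z, hzB, hzQ⟩
  by_contra hne
  rw [not_nonempty_iff_eq_empty] at hne
  have hBo : IsOpen Bᶜ := hBc.isOpen_compl
  have hd : Disjoint (P ∩ Bᶜ) (Q ∩ Bᶜ) := by
    rw [disjoint_left]
    rintro y ⟨h1, h2⟩ ⟨h3, -⟩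
    have : y ∈ Bᶜ ∩ (P ∩ Q) := ⟨h2, h1, h3⟩
    rw [hne] at this
    exact this
  have hd2 : Disjoint (closure (P ∩ Bᶜ)) (Q ∩ Bᶜ) := hd.closure_left (hQ.inter hBo)
  refine false_of_open (g := T) ⟨hT, h0, hadd⟩ (fun a ha x => hfree x a ha) (hP.inter hBo)
    ⟨x, hxP, hxB⟩ (fun h => ?_) (hB.mono ?_)
  · exact disjoint_left.1 hd2 (by rw [h]; exact mem_univ z) ⟨hzQ, hzB⟩
  · rintro y ⟨h1, h2⟩
    by_contra hy
    rcases hcov hy with h3 | h3
    · exact h2 ⟨h3, hy⟩
    · exact disjoint_left.1 hd2 h1 ⟨h3, hy⟩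

end Pool.Agent.Helper22.LR
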