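import Mathlib

/-! # Local cut points of continua with an action of the `p`-adic integers

If `ℤ_p` acts on a continuum, then a local cut point has a finite orbit: the two sides of the points
of the orbit would define an invariant total order on `ℤ_p`. -/

set_option autoImplicit false

namespace Pool.Agent.Helper22.LR
open Set Filter Topology

variable {p : ℕ} [hp : Fact p.Prime] {C : Type*} [TopologicalSpace C]

/-- a continuous action of `ℤ_p` by the maps `g a` -/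
structure Act (g : ℤ_[p] → C → C) : Prop where
  cont : Continuous fun q : ℤ_[p] × C => g q.1 q.2
  zero : ∀ x, g 0 x = x
  add : ∀ a b x, g (a + b) x = g a (g b x)

namespace Act
variable {g : ℤ_[p] → C → C} (hg : Act g)
include hg

theorem neg_add (a : ℤ_[p]) (x : C) : g (-a) (g a x) = x := by
  rw [← hg.add, neg_add_cancel, hg.zero]
theorem add_neg (a : ℤ_[p]) (x : C) : g a (g (-a) x) = x := by
  rw [← hg.add, add_neg_cancel, hg.zero]
theorem cont_left (x : C) : Continuous fun a => g a x :=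
  hg.cont.comp (continuous_id.prodMk continuous_const)
theorem cont_right (a : ℤ_[p]) : Continuous (g a) :=
  hg.cont.comp (continuous_const.prodMk continuous_id)
theorem sub (c : ℤ_[p]) : Act (fun a => g (c * a)) where
  cont := hg.cont.comp ((continuous_const.mul continuous_fst).prodMk continuous_snd)
  zero := fun x => by rw [mul_zero, hg.zero]
  add := fun a b x => by rw [mul_add, hg.add]

end Act

theorem tendsto_pow : Tendsto (fun k : ℕ => (p : ℤ_[p]) ^ k) atTop (𝓝 0) := by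
  rw [tendsto_zero_iff_norm_tendsto_zero]
  simp only [norm_pow, PadicInt.norm_p]
  apply tendsto_pow_atTop_nhds_zero_of_lt_one (by positivity)
  have := hp.out.one_lt
  rw [inv_lt_one₀ (by positivity)]
  exact_mod_cast this

theorem exists_pow {U : Set ℤ_[p]} (hU : U ∈ 𝓝 0) : ∃ k : ℕ, ∀ c : ℤ_[p], (p : ℤ_[p]) ^ k * c ∈ U := by
  obtain ⟨ε, hε, h⟩ := Metric.mem_nhds_iff.1 hU
  have h1 := (tendsto_zero_iff_norm_tendsto_zero.1 (tendsto_pow (p := p))).eventually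
    (gt_mem_nhds hε)
  obtain ⟨k, hk⟩ := h1.exists
  refine ⟨k, fun c => h ?_⟩
  rw [mem_ball_zero_iff, norm_mul]
  calc ‖(p : ℤ_[p]) ^ k‖ * ‖c‖ ≤ ‖(p : ℤ_[p]) ^ k‖ * 1 :=
        mul_le_mul_of_nonneg_left (PadicInt.norm_le_one c) (norm_nonneg _)
    _ < ε := by rw [mul_one]; exact hk

section core
variable {g : ℤ_[p] → C → C} {A₁ A₂ Y : Set C} {b : C}

/-- the side of the point `g a b` -/
structure Side (g : ℤ_[p] → C → C) (A₁ A₂ Y R₁ R₂ : Set C) (b z₁ z₂ : C) : Prop where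
  o₁ : IsOpen A₁
  o₂ : IsOpen A₂
  d : Disjoint A₁ A₂
  B : ∀ x ∈ Y, x ∈ A₁ ∨ x ∈ A₂ ∨ x = b
  b₁ : b ∉ A₁
  b₂ : b ∉ A₂
  bY : b ∈ Y
  inv : ∀ a, ∀ x ∈ Y, g a x ∈ Y
  c₁ : IsPreconnected R₁
  c₂ : IsPreconnected R₂
  s₁ : R₁ ⊆ Y
  s₂ : R₂ ⊆ Y
  e₁ : Disjoint R₁ A₂
  e₂ : Disjoint R₂ A₁
  m₁ : b ∈ R₁
  m₂ : b ∈ R₂
  n₁ : z₁ ∈ R₁
  n₂ : z₂ ∈ R₂
  l₁ : ∀ a, g a z₁ ∈ A₁
  l₂ : ∀ a, g a z₂ ∈ A₂

theorem Side.swap {R₁ R₂ : Set C} {z₁ z₂ : C} (h : Side g A₁ A₂ Y R₁ R₂ b z₁ z₂) :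
    Side g A₂ A₁ Y R₂ R₁ b z₂ z₁ where
  o₁ := h.o₂
  o₂ := h.o₁
  d := h.d.symm
  B := fun x hx => by rcases h.B x hx with h | h | h <;> simp [h]
  b₁ := h.b₂
  b₂ := h.b₁
  bY := h.bY
  inv := h.inv
  c₁ := h.c₂
  c₂ := h.c₁
  s₁ := h.s₂
  s₂ := h.s₁
  e₁ := h.e₂
  e₂ := h.e₁
  m₁ := h.m₂
  m₂ := h.m₁
  n₁ := h.n₂
  n₂ := h.n₁
  l₁ := h.l₂
  l₂ := h.l₁

variable {R₁ R₂ : Set C} {z₁ z₂ : C}

/-- a connected subset of `Y` which contains points on both sides of `g a b` contains `g a b` -/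
theorem Side.cross (hg : Act g) (h : Side g A₁ A₂ Y R₁ R₂ b z₁ z₂) (a : ℤ_[p]) {R : Set C}
    (hR : IsPreconnected R) (hY : R ⊆ Y) {u v : C} (hu : u ∈ R) (hv : v ∈ R)
    (hu1 : g (-a) u ∈ A₁) (hv2 : g (-a) v ∈ A₂) : g a b ∈ R := by
  by_contra hn
  have hc := hg.cont_right (-a)
  have h1 := hR _ _ (h.o₁.preimage hc) (h.o₂.preimage hc) (fun x hx => by
    rcases h.B _ (h.inv (-a) x (hY hx)) with h3 | h3 | h3
    · exact Or.inl h3
    · exact Or.inr h3
    · exfalso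
      apply hn
      rw [← h3, hg.add_neg]
      exact hx) ⟨u, hu, hu1⟩ ⟨v, hv, hv2⟩
  obtain ⟨x, -, h3, h4⟩ := h1
  exact disjoint_left.1 h.d h3 h4

theorem Side.odd (hg : Act g) (h : Side g A₁ A₂ Y R₁ R₂ b z₁ z₂) (hfree : ∀ a ≠ 0, g a b ≠ b)
    {a : ℤ_[p]} (ha : g a b ∈ A₁) : g (-a) b ∈ A₂ := by
  have ha0 : a ≠ 0 := by
    rintro rfl
    rw [hg.zero] at ha
    exact h.b₁ ha
  rcases h.B _ (h.inv (-a) b h.bY) with h1 | h1 | h1
  · exfalso
    have := h.cross hg a h.c₂ h.s₂ h.m₂ h.n₂ h1 (h.l₂ _)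
    exact disjoint_left.1 h.e₂ this ha
  · exact h1
  · exact absurd h1 (hfree _ (neg_ne_zero.2 ha0))

theorem Side.trans (hg : Act g) (h : Side g A₁ A₂ Y R₁ R₂ b z₁ z₂) (hfree : ∀ a ≠ 0, g a b ≠ b)
    {a a' : ℤ_[p]} (ha : g a b ∈ A₁) (ha' : g a' b ∈ A₁) : g (a + a') b ∈ A₁ := by
  have hc0 : a + a' ≠ 0 := by
    intro h0
    have h1 : a' = -a := by linear_combination h0
    rw [h1] at ha'
    exact disjoint_left.1 h.d ha' (h.odd hg hfree ha)
  rcases h.B _ (h.inv (a + a') b h.bY) with h1 | h1 | h1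
  · exact h1
  · exfalso
    have h2 := h.swap.odd hg hfree h1
    have h3 := h.cross hg (a + a') h.c₂ h.s₂ h.m₂ h.n₂ h2 (h.l₂ _)
    have h4 : g (-a) (g (a + a') b) ∈ A₁ := by
      rw [← hg.add, neg_add_cancel_left]
      exact ha'
    have h5 := h.cross hg a h.c₂ h.s₂ h3 h.m₂ h4 (h.odd hg hfree ha)
    exact disjoint_left.1 h.e₂ h5 ha
  · exact absurd h1 (hfree _ hc0)

theorem Side.false (hg : Act g) (h : Side g A₁ A₂ Y R₁ R₂ b z₁ z₂)
    (hfree : ∀ a ≠ 0, g a b ≠ b) {a : ℤ_[p]} (ha : g a b ∈ A₁) : False := by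
  have h1 : ∀ n : ℕ, g ((n + 1 : ℕ) * a) b ∈ A₁ := by
    intro n
    induction n with
    | zero => simpa using ha
    | succ n ih =>
      have := h.trans hg hfree ih ha
      rwa [show ((n + 1 : ℕ) : ℤ_[p]) * a + a = ((n + 1 + 1 : ℕ) : ℤ_[p]) * a by push_cast; ring]
        at this
  have h2 : Tendsto (fun k : ℕ => ((p : ℤ_[p]) ^ k - 1) * a) atTop (𝓝 (-a)) := by
    have := ((tendsto_pow (p := p)).sub_const 1).mul_const a
    rwa [zero_sub, neg_one_mul] at this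
  have h3 := ((hg.cont_left b).tendsto (-a)).comp h2
  have h4 := h3.eventually (h.o₂.mem_nhds (h.odd hg hfree ha))
  obtain ⟨k, hk1, hk2⟩ := (h4.and (eventually_ge_atTop 1)).exists
  simp only [Function.comp_apply] at hk1
  have hpk : 2 ≤ p ^ k := by
    calc 2 ≤ p := hp.out.two_le
      _ = p ^ 1 := (pow_one p).symm
      _ ≤ p ^ k := Nat.pow_le_pow_right hp.out.pos hk2
  have h5 := h1 (p ^ k - 2)
  have e : ((p ^ k - 2 + 1 : ℕ) : ℤ_[p]) = (p : ℤ_[p]) ^ k - 1 := by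
    rw [show p ^ k - 2 + 1 = p ^ k - 1 by omega, Nat.cast_sub (by omega)]
    push_cast
    ring
  rw [e] at h5
  exact disjoint_left.1 h.d h5 hk1

/-- the orbit of `b` is finite -/
theorem Side.stab (hg : Act g) (h : Side g A₁ A₂ Y R₁ R₂ b z₁ z₂) : ∃ a ≠ 0, g a b = b := by
  by_contra hn
  push Not at hn
  rcases h.B _ (h.inv 1 b h.bY) with h1 | h1 | h1
  · exact h.false hg hn h1
  · exact h.swap.false hg hn h1
  · exact hn 1 one_ne_zero h1

end core

/-- a connected set which leads from `b` into `A₁` -/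
theorem exists_arm [CompactSpace C] [T2Space C] [PreconnectedSpace C] {A₁ A₂ O : Set C} {b : C}
    (h1 : IsOpen A₁) (h2 : IsOpen A₂) (hd : Disjoint A₁ A₂) (hb1 : b ∈ closure A₁)
    (hO : IsOpen O) (hbO : b ∈ O) (hB : ∀ x ∈ closure O, x ∈ A₁ ∨ x ∈ A₂ ∨ x = b)
    (hb : b ∉ A₁) (hb' : b ∉ A₂) :
    ∃ R : Set C, IsPreconnected R ∧ R ⊆ closure O ∧ Disjoint R A₂ ∧ b ∈ R ∧ ∃ z ∈ R, z ∈ A₁ := by
  set K : Set C := closure O \ A₂ with hK
  have hKc : IsClosed K := isClosed_closure.sdiff h2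
  have : CompactSpace K := isCompact_iff_compactSpace.1 hKc.isCompact
  have hbK : b ∈ K := ⟨subset_closure hbO, hb'⟩
  set bb : K := ⟨b, hbK⟩
  refine ⟨Subtype.val '' connectedComponent bb, isPreconnected_connectedComponent.image _
    continuous_subtype_val.continuousOn, ?_, ?_, ⟨bb, mem_connectedComponent, rfl⟩, ?_⟩
  · rintro _ ⟨x, -, rfl⟩; exact x.2.1
  · rw [disjoint_left]
    rintro _ ⟨x, -, rfl⟩; exact x.2.2
  · by_contra hn
    have hcc : ∀ x ∈ connectedComponent bb, x = bb := by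
      intro x hx
      have h3 : (x : C) ∉ A₁ := fun h4 => hn ⟨x, ⟨x, hx, rfl⟩, h4⟩
      rcases hB x x.2.1 with h4 | h4 | h4
      · exact absurd h4 h3
      · exact absurd h4 x.2.2
      · exact Subtype.ext h4
    -- a clopen neighbourhood inside `O`
    obtain ⟨⟨G, hG, hbG⟩, hGO⟩ : ∃ s : {s : Set K // IsClopen s ∧ bb ∈ s},
        (s : Set K) ⊆ Subtype.val ⁻¹' O := by
      have : Nonempty {s : Set K // IsClopen s ∧ bb ∈ s} := ⟨⟨univ, isClopen_univ, mem_univ _⟩⟩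
      apply exists_subset_nhds_of_isCompact' (V := fun s : {s : Set K // IsClopen s ∧ bb ∈ s} => (s : Set K))
      · intro s t
        exact ⟨⟨s ∩ t, s.2.1.inter t.2.1, s.2.2, t.2.2⟩, inter_subset_left, inter_subset_right⟩
      · exact fun s => s.2.1.1.isCompact
      · exact fun s => s.2.1.1
      · intro x hx
        rw [← connectedComponent_eq_iInter_isClopen] at hx
        rw [hcc x hx]
        exact (hO.preimage continuous_subtype_val).mem_nhds hbO
    simp only at hGO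
    obtain ⟨W, hW, hWG⟩ := isOpen_induced_iff.1 hG.2
    have hbW : b ∈ W := by
      have : bb ∈ Subtype.val ⁻¹' W := by rw [hWG]; exact hbG
      exact this
    obtain ⟨z, hz, hzA⟩ := mem_closure_iff.1 hb1 (O ∩ W) (hO.inter hW) ⟨hbO, hbW⟩
    have hzK : z ∈ K := ⟨subset_closure hz.1, disjoint_left.1 hd hzA⟩
    have hzb : z ≠ b := fun h => hb (h ▸ hzA)
    -- separate `z` from `b`
    have hzc : (⟨z, hzK⟩ : K) ∉ connectedComponent bb := fun h =>
      hzb (congrArg Subtype.val (hcc _ h))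
    rw [connectedComponent_eq_iInter_isClopen, mem_iInter] at hzc
    push Not at hzc
    obtain ⟨⟨G₁, hG₁, hbG₁⟩, hzG₁⟩ := hzc
    simp only at hzG₁
    set G₂ : Set K := G \ G₁ with hG₂
    have hG₂c : IsClopen G₂ := hG.diff hG₁
    obtain ⟨W₂, hW₂, hWG₂⟩ := isOpen_induced_iff.1 hG₂c.2
    have hzG : (⟨z, hzK⟩ : K) ∈ G := by rw [← hWG]; exact hz.2
    have e : Subtype.val '' G₂ = A₁ ∩ O ∩ W₂ := by
      ext x
      constructor
      · rintro ⟨x, hx, rfl⟩
        have hxO : (x : C) ∈ O := hGO hx.1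
        have hxb : (x : C) ≠ b := by
          intro h
          apply hx.2
          have : x = bb := Subtype.ext h
          rw [this]; exact hbG₁
        refine ⟨⟨?_, hxO⟩, ?_⟩
        · rcases hB x x.2.1 with h4 | h4 | h4
          · exact h4
          · exact absurd h4 x.2.2
          · exact absurd h4 hxb
        · have : x ∈ Subtype.val ⁻¹' W₂ := by rw [hWG₂]; exact hx
          exact this
      · rintro ⟨⟨hx1, hx2⟩, hx3⟩
        have hxK : x ∈ K := ⟨subset_closure hx2, disjoint_left.1 hd hx1⟩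
        refine ⟨⟨x, hxK⟩, ?_, rfl⟩
        rw [← hWG₂]
        exact hx3
    have hcl : IsClopen (Subtype.val '' G₂) := by
      constructor
      · exact hKc.isClosedEmbedding_subtypeVal.isClosedMap _ hG₂c.1
      · rw [e]; exact (h1.inter hO).inter hW₂
    rcases isClopen_iff.1 hcl with h0 | h0
    · have : z ∈ Subtype.val '' G₂ := ⟨⟨z, hzK⟩, ⟨hzG, hzG₁⟩, rfl⟩
      rw [h0] at this
      exact this
    · have : b ∈ Subtype.val '' G₂ := by rw [h0]; exact mem_univ _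
      rw [e] at this
      exact hb this.1.1

/-- **a local cut point of a continuum with an action of `ℤ_p` has a finite orbit** -/
theorem stab_of_isolated [CompactSpace C] [T2Space C] [PreconnectedSpace C]
    {g : ℤ_[p] → C → C} (hg : Act g) {A₁ A₂ O' : Set C} {b : C}
    (h1 : IsOpen A₁) (h2 : IsOpen A₂) (hd : Disjoint A₁ A₂) (hb1 : b ∈ closure A₁)
    (hb2 : b ∈ closure A₂) (hO' : IsOpen O') (hbO' : b ∈ O')
    (hB' : ∀ x ∈ closure O', x ∈ A₁ ∨ x ∈ A₂ ∨ x = b)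
    (hb : b ∉ A₁) (hb' : b ∉ A₂) : ∃ a ≠ 0, g a b = b := by
  -- an invariant neighbourhood
  obtain ⟨k, hk⟩ := exists_pow (((hO'.preimage (hg.cont_left b)).mem_nhds
    (show (0 : ℤ_[p]) ∈ (fun a => g a b) ⁻¹' O' by simp only [mem_preimage, hg.zero]; exact hbO')))
  set g' : ℤ_[p] → C → C := fun a => g ((p : ℤ_[p]) ^ k * a) with hg'd
  have hg' : Act g' := hg.sub _
  set O : Set C := {x | ∀ a, g' a x ∈ O'} with hO
  have hOo : IsOpen O := by
    have hc : IsClosed {q : ℤ_[p] × C | g' q.1 q.2 ∉ O'} :=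
      (hO'.preimage hg'.cont).isClosed_compl
    have := (isClosedMap_snd_of_compactSpace (X := ℤ_[p]) (Y := C)) _ hc
    rw [← isClosed_compl_iff]
    convert this using 1
    ext x
    simp only [hO, mem_compl_iff, mem_ofPred_eq, not_forall, mem_image, Prod.exists,
      exists_eq_right]
  have hbO : b ∈ O := fun a => hk a
  have hOO : O ⊆ O' := fun x hx => by have := hx 0; rwa [hg'.zero] at this
  have hOinv : ∀ a, ∀ x ∈ O, g' a x ∈ O := by
    intro a x hx c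
    rw [← hg'.add]
    exact hx _
  have hOcl : ∀ a, ∀ x ∈ closure O, g' a x ∈ closure O := fun a x hx =>
    map_mem_closure (hg'.cont_right a) hx (hOinv a)
  have hB : ∀ x ∈ closure O, x ∈ A₁ ∨ x ∈ A₂ ∨ x = b := fun x hx => hB' x (closure_mono hOO hx)
  obtain ⟨R₁, a1, a2, a3, a4, z₁, a5, a6⟩ := exists_arm h1 h2 hd hb1 hOo hbO hB hb hb'
  obtain ⟨R₂, b1, b2, b3, b4, z₂, b5, b6⟩ := exists_arm h2 h1 hd.symm hb2 hOo hbO
    (fun x hx => by rcases hB x hx with h | h | h <;> simp [h]) hb' hb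
  -- small elements
  obtain ⟨l, hl⟩ := exists_pow (inter_mem
    ((h1.preimage (hg'.cont_left z₁)).mem_nhds
      (show (0 : ℤ_[p]) ∈ (fun a => g' a z₁) ⁻¹' A₁ by
        simp only [mem_preimage, hg'.zero]; exact a6))
    ((h2.preimage (hg'.cont_left z₂)).mem_nhds
      (show (0 : ℤ_[p]) ∈ (fun a => g' a z₂) ⁻¹' A₂ by
        simp only [mem_preimage, hg'.zero]; exact b6)))
  have hS : Side (fun a => g' ((p : ℤ_[p]) ^ l * a)) A₁ A₂ (closure O) R₁ R₂ b z₁ z₂ :=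
    { o₁ := h1, o₂ := h2, d := hd, B := hB, b₁ := hb, b₂ := hb', bY := subset_closure hbO
      inv := fun a x hx => hOcl _ x hx
      c₁ := a1, c₂ := b1, s₁ := a2, s₂ := b2, e₁ := a3, e₂ := b3, m₁ := a4, m₂ := b4
      n₁ := a5, n₂ := b5, l₁ := fun a => (hl a).1, l₂ := fun a => (hl a).2 }
  obtain ⟨a, ha, h⟩ := hS.stab (hg'.sub _)
  have hp0 : (p : ℤ_[p]) ≠ 0 := by exact_mod_cast hp.out.ne_zero
  exact ⟨(p : ℤ_[p]) ^ k * ((p : ℤ_[p]) ^ l * a),
    mul_ne_zero (pow_ne_zero _ hp0) (mul_ne_zero (pow_ne_zero _ hp0) ha), h⟩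

end Pool.Agent.Helper22.LR
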