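import Pool.Agent.Helper22.LR.Core

/-! # Countable unions of rational sets

`ℤ_p` acts on a compact space `T` with infinite orbits. If `T` is a countable union of closed rational
sets, then `T` is totally disconnected. -/

set_option autoImplicit false

namespace Pool.Agent.Helper22.LR
open Set Filter Topology

variable {p : ℕ} [hp : Fact p.Prime]

/-- A closed set `C` is rational if every point has arbitrarily small neighbourhoods with a countable
frontier in `C`. -/
structure Rational {T : Type*} [TopologicalSpace T] (C : Set T) : Prop where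
  cl : IsClosed C
  nb : ∀ x ∈ C, ∀ U ∈ 𝓝 x, ∃ V : Set T, IsOpen V ∧ x ∈ V ∧ V ⊆ U ∧ (closure (C ∩ V) \ V).Countable

variable {T : Type*} [TopologicalSpace T] {g : ℤ_[p] → T → T}

/-- the homeomorphism `g a` -/
noncomputable def Act.homeo (hg : Act g) (a : ℤ_[p]) : T ≃ₜ T where
  toFun := g a
  invFun := g (-a)
  left_inv := hg.neg_add a
  right_inv := hg.add_neg a
  continuous_toFun := hg.cont_right a
  continuous_invFun := hg.cont_right (-a)

theorem Rational.preimage (hg : Act g) {C : Set T} (hC : Rational C) (a : ℤ_[p]) :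
    Rational (g a ⁻¹' C) where
  cl := hC.cl.preimage (hg.cont_right a)
  nb := by
    intro x hx U hU
    have h1 : (hg.homeo a) '' U ∈ 𝓝 (g a x) := (hg.homeo a).isOpenMap.image_mem_nhds hU
    obtain ⟨V, hV, hxV, hVU, hc⟩ := hC.nb (g a x) hx _ h1
    refine ⟨g a ⁻¹' V, hV.preimage (hg.cont_right a), hxV, ?_, ?_⟩
    · intro z hz
      obtain ⟨u, hu, h⟩ := hVU hz
      have : u = z := (hg.homeo a).injective h
      rwa [← this]
    · have h2 : closure (g a ⁻¹' C ∩ g a ⁻¹' V) \ (g a ⁻¹' V) ⊆ g a ⁻¹' (closure (C ∩ V) \ V) := by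
        rintro z ⟨hz1, hz2⟩
        refine ⟨?_, hz2⟩
        rw [← preimage_inter] at hz1
        exact (hg.cont_right a).closure_preimage_subset _ hz1
      exact (hc.preimage (hg.homeo a).injective).mono h2

/-- components are mapped to components -/
theorem Act.image_comp (hg : Act g) (a : ℤ_[p]) (x : T) :
    g a '' connectedComponent x = connectedComponent (g a x) := by
  apply Subset.antisymm
  · exact (hg.cont_right a).image_connectedComponent_subset x
  · intro z hz
    have h1 := (hg.cont_right (-a)).image_connectedComponent_subset (g a x)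
    rw [hg.neg_add] at h1
    exact ⟨g (-a) z, h1 ⟨z, hz, rfl⟩, hg.add_neg a z⟩

theorem exists_box {U : Set (ℤ_[p] × T)} (hU : IsOpen U) {a : ℤ_[p]} {x : T} (h : (a, x) ∈ U) :
    ∃ (k : ℕ) (W : Set T), IsOpen W ∧ x ∈ W ∧
      ∀ c : ℤ_[p], ∀ z ∈ W, (a + (p : ℤ_[p]) ^ k * c, z) ∈ U := by
  obtain ⟨A, hA, W, hW, hAW⟩ := mem_nhds_prod_iff.1 (hU.mem_nhds h)
  obtain ⟨W', hW', hW'o, hxW⟩ := mem_nhds_iff.1 hW
  have h0 : (fun c => a + c) ⁻¹' A ∈ 𝓝 (0 : ℤ_[p]) := by
    apply (continuous_const.add continuous_id).continuousAt.preimage_mem_nhds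
    simpa using hA
  obtain ⟨k, hk⟩ := exists_pow h0
  exact ⟨k, W', hW'o, hxW, fun c z hz => hAW ⟨hk c, hW' hz⟩⟩

/-- in a continuum with an action of `ℤ_p` with infinite orbits there is no open set with a countable
frontier -/
theorem false_of_open {S : Type*} [TopologicalSpace S] [CompactSpace S] [T2Space S]
    [PreconnectedSpace S] {g : ℤ_[p] → S → S} (hg : Act g) (hfree : ∀ a ≠ 0, ∀ x, g a x ≠ x)
    {U : Set S} (hUo : IsOpen U) (hne : U.Nonempty) (hcl : closure U ≠ univ)
    (hc : (closure U \ U).Countable) : False := by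
  obtain ⟨x₂, hx₂⟩ := hne
  obtain ⟨x', hx'⟩ := (ne_univ_iff_exists_notMem _).1 hcl
  set A₁ := interior (closure U) with hA₁
  set A₂ := (closure U)ᶜ with hA₂
  have hd : Disjoint A₁ A₂ := disjoint_left.2 fun x hx hx2 => hx2 (interior_subset hx)
  set B : Set S := (A₁ ∪ A₂)ᶜ with hB
  have hA₁o : IsOpen A₁ := isOpen_interior
  have hA₂o : IsOpen A₂ := isClosed_closure.isOpen_compl
  have hUA : U ⊆ A₁ := interior_maximal subset_closure hUo
  have hBcl : IsClosed B := (hA₁o.union hA₂o).isClosed_compl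
  have hBc : B.Countable := by
    refine hc.mono ?_
    intro s hs
    rw [hB, compl_union, mem_inter_iff, hA₂, compl_compl] at hs
    exact ⟨hs.2, fun h => hs.1 (hUA h)⟩
  have hBne : B.Nonempty := by
    by_contra hne
    rw [not_nonempty_iff_eq_empty, hB, compl_empty_iff] at hne
    have hcl : IsClopen A₁ := by
      refine ⟨?_, hA₁o⟩
      rw [← isOpen_compl_iff]
      have : A₁ᶜ = A₂ := by
        ext x
        constructor
        · intro hx
          have : x ∈ A₁ ∪ A₂ := by rw [hne]; exact mem_univ _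
          exact this.resolve_left hx
        · intro hx hx1
          exact disjoint_left.1 hd hx1 hx
      rw [this]
      exact hA₂o
    rcases isClopen_iff.1 hcl with h | h
    · have : x₂ ∈ A₁ := hUA hx₂
      rw [h] at this
      exact this
    · have h2 : x' ∈ A₁ := by rw [h]; exact mem_univ _
      exact hx' (interior_subset h2)
  -- an isolated point
  have : CompactSpace B := isCompact_iff_compactSpace.1 hBcl.isCompact
  have : Nonempty B := hBne.to_subtype
  have : Countable B := hBc.to_subtype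
  obtain ⟨b, hbi⟩ := nonempty_interior_of_iUnion_of_closed (f := fun b : B => ({b} : Set B))
    (fun b => isClosed_singleton) (by rw [iUnion_of_singleton])
  have hb1 : IsOpen ({b} : Set B) := by
    have h1 : interior ({b} : Set B) = {b} := by
      obtain ⟨c, hc⟩ := hbi
      have h2 : c ∈ ({b} : Set B) := interior_subset hc
      rw [mem_singleton_iff] at h2
      rw [h2] at hc
      exact Subset.antisymm interior_subset (singleton_subset_iff.2 hc)
    rw [← h1]; exact isOpen_interior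
  obtain ⟨O, hO, hOb⟩ := isOpen_induced_iff.1 hb1
  have hbO : (b : S) ∈ O := by
    have : b ∈ Subtype.val ⁻¹' O := by rw [hOb]; rfl
    exact this
  obtain ⟨O', hO', hbO', hOO'⟩ : ∃ O' : Set S, IsOpen O' ∧ (b : S) ∈ O' ∧ closure O' ⊆ O := by
    obtain ⟨K, hK1, hK2, hK3⟩ := exists_mem_nhds_isClosed_subset (hO.mem_nhds hbO)
    refine ⟨interior K, isOpen_interior, mem_interior_iff_mem_nhds.2 hK1, ?_⟩
    exact (closure_minimal interior_subset hK2).trans hK3
  have hbB : (b : S) ∉ A₁ ∧ (b : S) ∉ A₂ := by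
    have h1 : (b : S) ∈ (A₁ ∪ A₂)ᶜ := b.2
    exact ⟨fun h => h1 (Or.inl h), fun h => h1 (Or.inr h)⟩
  have hbcl : (b : S) ∈ closure U := by
    have := hbB.2
    rwa [hA₂, notMem_compl_iff] at this
  obtain ⟨a, ha, h⟩ := stab_of_isolated hg hA₁o hA₂o hd (closure_mono hUA hbcl)
    (by
      rw [hA₂, closure_compl]
      exact hbB.1)
    hO' hbO' (fun x hx => by
      by_contra hn
      push Not at hn
      have hxB : x ∈ B := by
        rw [hB, compl_union]; exact ⟨hn.1, hn.2.1⟩
      have : (⟨x, hxB⟩ : B) ∈ Subtype.val ⁻¹' O := hOO' hx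
      rw [hOb] at this
      exact hn.2.2 (congrArg Subtype.val (show (⟨x, hxB⟩ : B) = b from this))) hbB.1 hbB.2
  exact hfree a ha b h

/-- the case of an invariant component -/
theorem false_of_invariant [CompactSpace T] [T2Space T] (hg : Act g)
    (hfree : ∀ a ≠ 0, ∀ x, g a x ≠ x) {x₀ : T} {D W V : Set T} {x₂ x' : T}
    (hinv : ∀ a, ∀ x ∈ connectedComponent x₀, g a x ∈ connectedComponent x₀)
    (hW : connectedComponent x₀ ∩ W ⊆ D)
    (hV : IsOpen V) (hVW : closure V ⊆ W) (hc : (closure (D ∩ V) \ V).Countable)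
    (hx₂ : x₂ ∈ connectedComponent x₀) (hx₂V : x₂ ∈ V)
    (hx' : x' ∈ connectedComponent x₀) (hx'V : x' ∉ closure V) : False := by
  set S : Set T := connectedComponent x₀ with hS
  have hScl : IsClosed S := isClosed_connectedComponent
  have : CompactSpace S := isCompact_iff_compactSpace.1 hScl.isCompact
  have : PreconnectedSpace S := isPreconnected_iff_preconnectedSpace.1 isPreconnected_connectedComponent
  set g' : ℤ_[p] → S → S := fun a x => ⟨g a x, hinv a x x.2⟩ with hg'd
  have hg' : Act g' :=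
    { cont := by
        apply Continuous.subtype_mk
        exact hg.cont.comp (continuous_fst.prodMk (continuous_subtype_val.comp continuous_snd))
      zero := fun x => Subtype.ext (hg.zero x)
      add := fun a b x => Subtype.ext (hg.add a b x) }
  set U : Set S := Subtype.val ⁻¹' V with hU
  have hUo : IsOpen U := hV.preimage continuous_subtype_val
  have hUcl : ∀ s ∈ closure U, (s : T) ∈ closure V := fun s hs =>
    continuous_subtype_val.closure_preimage_subset V hs
  refine false_of_open hg' (fun a ha x h => hfree a ha x (congrArg Subtype.val h)) hUo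
    ⟨⟨x₂, hx₂⟩, hx₂V⟩ (fun h => ?_) ?_
  · have h2 : (⟨x', hx'⟩ : S) ∈ closure U := by rw [h]; exact mem_univ _
    exact hx'V (hUcl _ h2)
  · refine (hc.preimage Subtype.val_injective).mono ?_
    rintro s ⟨hs1, hs2⟩
    refine ⟨?_, hs2⟩
    have h2 : (s : T) ∈ closure (Subtype.val '' U) :=
      image_closure_subset_closure_image continuous_subtype_val ⟨s, hs1, rfl⟩
    refine closure_mono ?_ h2
    rintro _ ⟨u, hu, rfl⟩
    exact ⟨hW ⟨u.2, hVW (subset_closure hu)⟩, hu⟩

/-- **Lemma R**: an action of `ℤ_p` with infinite orbits on a compact space which is a countable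
union of closed rational sets: the space is totally disconnected -/
theorem td_of_rational [CompactSpace T] [T2Space T] (hg : Act g)
    (hfree : ∀ a ≠ 0, ∀ x, g a x ≠ x) {C : ℕ → Set T} (hC : ∀ i, Rational (C i))
    (hcov : ⋃ i, C i = univ) : TotallyDisconnectedSpace T := by
  rw [totallyDisconnectedSpace_iff_connectedComponent_singleton]
  intro x₀
  apply Subset.antisymm _ (singleton_subset_iff.2 mem_connectedComponent)
  intro x₁ hx₁
  by_contra hne
  rw [mem_singleton_iff] at hne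
  set S : Set T := connectedComponent x₀ with hS
  have hScl : IsClosed S := isClosed_connectedComponent
  have hcS : CompactSpace S := isCompact_iff_compactSpace.1 hScl.isCompact
  have hx₀ : x₀ ∈ S := mem_connectedComponent
  have : Nonempty S := ⟨⟨x₀, hx₀⟩⟩
  -- step 1
  obtain ⟨i, hi⟩ := nonempty_interior_of_iUnion_of_closed
    (f := fun i : ℕ => {q : ℤ_[p] × S | g q.1 q.2 ∈ C i})
    (fun i => (hC i).cl.preimage
      (hg.cont.comp (continuous_fst.prodMk (continuous_subtype_val.comp continuous_snd))))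
    (by
      ext q
      simp only [mem_univ, iff_true]
      have : g q.1 q.2 ∈ ⋃ i, C i := by rw [hcov]; exact mem_univ _
      obtain ⟨i, hi⟩ := mem_iUnion.1 this
      exact mem_iUnion.2 ⟨i, hi⟩)
  obtain ⟨⟨a₀, s₂⟩, hq⟩ := hi
  obtain ⟨k, W', hW'o, hsW', hW'⟩ := exists_box isOpen_interior hq
  obtain ⟨W, hWo, hWW'⟩ := isOpen_induced_iff.1 hW'o
  set x₂ : T := (s₂ : T) with hx₂
  have hx₂S : x₂ ∈ S := s₂.2
  have hx₂W : x₂ ∈ W := by
    have : s₂ ∈ Subtype.val ⁻¹' W := by rw [hWW']; exact hsW'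
    exact this
  have hWC : ∀ c : ℤ_[p], ∀ x ∈ S, x ∈ W → g (a₀ + (p : ℤ_[p]) ^ k * c) x ∈ C i := by
    intro c x hx hxW
    have h1 : (⟨x, hx⟩ : S) ∈ W' := by rw [← hWW']; exact hxW
    have h2 := interior_subset (hW' c _ h1)
    exact h2
  set D : Set T := g a₀ ⁻¹' C i with hD
  have hDR : Rational D := (hC i).preimage hg a₀
  have hWD : ∀ c : ℤ_[p], ∀ x ∈ S, x ∈ W → g ((p : ℤ_[p]) ^ k * c) x ∈ D := by
    intro c x hx hxW
    rw [hD, mem_preimage, ← hg.add]
    exact hWC c x hx hxW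
  -- a point of `S` different from `x₂`
  obtain ⟨x', hx'S, hx'⟩ : ∃ x' ∈ S, x' ≠ x₂ := by
    by_cases h : x₂ = x₀
    · exact ⟨x₁, hx₁, fun h2 => hne (h2.trans h)⟩
    · exact ⟨x₀, hx₀, fun h2 => h h2.symm⟩
  -- step 2
  have hx₂D : x₂ ∈ D := by
    have := hWD 0 x₂ hx₂S hx₂W
    rwa [mul_zero, hg.zero] at this
  obtain ⟨K, hK1, hK2, hK3⟩ := exists_mem_nhds_isClosed_subset
    (inter_mem (hWo.mem_nhds hx₂W) (isOpen_ne.mem_nhds (Ne.symm hx') : {z | z ≠ x'} ∈ 𝓝 x₂))
  obtain ⟨V, hVo, hx₂V, hVK, hVc⟩ := hDR.nb x₂ hx₂D K hK1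
  have hclV : closure V ⊆ K := closure_minimal hVK hK2
  have hVW : closure V ⊆ W := fun z hz => (hK3 (hclV hz)).1
  have hx'V : x' ∉ closure V := fun h => (hK3 (hclV h)).2 rfl
  set B₂ := closure (D ∩ V) \ V with hB₂
  -- small elements
  obtain ⟨l, hl⟩ : ∃ l : ℕ, ∀ c : ℤ_[p], (∀ v ∈ closure V, g (-((p : ℤ_[p]) ^ l * c)) v ∈ W) ∧
      g ((p : ℤ_[p]) ^ l * c) x₂ ∈ V ∧ g ((p : ℤ_[p]) ^ l * c) x' ∉ V := by
    have n1 : {a : ℤ_[p] | ∀ v ∈ closure V, g (-a) v ∈ W} ∈ 𝓝 0 := by
      have hKc : IsCompact (closure V) := isClosed_closure.isCompact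
      have ho : IsOpen {q : ℤ_[p] × T | g (-q.1) q.2 ∈ W} :=
        hWo.preimage (hg.cont.comp (continuous_fst.neg.prodMk continuous_snd))
      obtain ⟨A, B, hA, -, hA0, hB, h⟩ := generalized_tube_lemma
        (isCompact_singleton (x := (0 : ℤ_[p]))) hKc ho (by
          rintro ⟨a, v⟩ ⟨ha, hv⟩
          have ha : a = 0 := ha
          show g (-a) v ∈ W
          rw [ha, neg_zero, hg.zero]
          exact hVW hv)
      refine mem_of_superset (hA.mem_nhds (hA0 rfl)) ?_
      intro a ha v hv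
      exact h (show (a, v) ∈ A ×ˢ B from ⟨ha, hB hv⟩)
    have n2 : {a : ℤ_[p] | g a x₂ ∈ V} ∈ 𝓝 0 :=
      (hVo.preimage (hg.cont_left x₂)).mem_nhds (by
        simp only [mem_preimage, hg.zero]; exact hx₂V)
    have n3 : {a : ℤ_[p] | g a x' ∈ (closure V)ᶜ} ∈ 𝓝 0 :=
      (isClosed_closure.isOpen_compl.preimage (hg.cont_left x')).mem_nhds (by
        simp only [mem_preimage, hg.zero]; exact hx'V)
    obtain ⟨l, hl⟩ := exists_pow (inter_mem n1 (inter_mem n2 n3))
    exact ⟨l, fun c => ⟨(hl c).1, (hl c).2.1, fun h => (hl c).2.2 (subset_closure h)⟩⟩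
  have key : ∀ c : ℤ_[p], ∃ q ∈ B₂, g (-((p : ℤ_[p]) ^ k * ((p : ℤ_[p]) ^ l * c))) q ∈ S := by
    intro c
    set a : ℤ_[p] := (p : ℤ_[p]) ^ k * ((p : ℤ_[p]) ^ l * c) with ha
    have ha2 : a = (p : ℤ_[p]) ^ l * ((p : ℤ_[p]) ^ k * c) := by rw [ha]; ring
    obtain ⟨h1, h2, h3⟩ := hl ((p : ℤ_[p]) ^ k * c)
    rw [← ha2] at h1 h2 h3
    have hSa : IsPreconnected (g a '' S) :=
      isPreconnected_connectedComponent.image _ (hg.cont_right a).continuousOn
    obtain ⟨z, hz1, hz2, hz3⟩ : ∃ z ∈ g a '' S, z ∈ closure (g a '' S ∩ V) ∧ z ∉ V := by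
      by_contra hn
      push Not at hn
      obtain ⟨z, h4, h5, h6⟩ := hSa V (closure (g a '' S ∩ V))ᶜ hVo
        isClosed_closure.isOpen_compl (fun z hz => by
          by_cases h : z ∈ closure (g a '' S ∩ V)
          · exact Or.inl (hn z hz h)
          · exact Or.inr h) ⟨g a x₂, ⟨x₂, hx₂S, rfl⟩, h2⟩
        ⟨g a x', ⟨x', hx'S, rfl⟩, fun h => h3 (hn _ ⟨x', hx'S, rfl⟩ h)⟩
      exact h6 (subset_closure ⟨h4, h5⟩)
    refine ⟨z, ⟨closure_mono ?_ hz2, hz3⟩, ?_⟩
    · rintro v ⟨⟨u, hu, rfl⟩, hv⟩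
      refine ⟨?_, hv⟩
      have h4 := h1 (g a u) (subset_closure hv)
      rw [hg.neg_add] at h4
      exact hWD _ u hu h4
    · obtain ⟨u, hu, rfl⟩ := hz1
      rw [hg.neg_add]
      exact hu
  have : Countable B₂ := hVc.to_subtype
  obtain ⟨q, c₀, hc₀⟩ := nonempty_interior_of_iUnion_of_closed
    (f := fun q : B₂ => {c : ℤ_[p] | g (-((p : ℤ_[p]) ^ k * ((p : ℤ_[p]) ^ l * c))) q ∈ S})
    (fun q => hScl.preimage ((hg.cont_left (q : T)).comp
      (continuous_const.mul (continuous_const.mul continuous_id)).neg))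
    (by
      ext c
      simp only [mem_univ, iff_true]
      obtain ⟨q, hq, h⟩ := key c
      exact mem_iUnion.2 ⟨⟨q, hq⟩, h⟩)
  obtain ⟨m, hm⟩ := exists_pow (U := (fun c => c₀ + c) ⁻¹' _)
    ((continuous_const.add continuous_id).continuousAt.preimage_mem_nhds
      (by simpa using mem_interior_iff_mem_nhds.1 hc₀))
  set u₀ : T := g (-((p : ℤ_[p]) ^ k * ((p : ℤ_[p]) ^ l * c₀))) q with hu₀
  have hu₀S : u₀ ∈ S := by
    have := hm 0
    simpa using this
  have hinv : ∀ d : ℤ_[p], ∀ x ∈ S, g ((p : ℤ_[p]) ^ (k + l + m) * d) x ∈ S := by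
    intro d x hx
    have h1 : g ((p : ℤ_[p]) ^ (k + l + m) * d) u₀ ∈ S := by
      have := hm (-d)
      change g (-((p : ℤ_[p]) ^ k * ((p : ℤ_[p]) ^ l * (c₀ + (p : ℤ_[p]) ^ m * (-d))))) q ∈ S at this
      rw [hu₀, ← hg.add]
      convert this using 2
      ring
    have h2 : S = connectedComponent u₀ := connectedComponent_eq hu₀S
    have h3 : S = connectedComponent (g ((p : ℤ_[p]) ^ (k + l + m) * d) u₀) :=
      connectedComponent_eq h1
    rw [h3, ← hg.image_comp, ← h2]
    exact ⟨x, hx, rfl⟩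
  have hp0 : (p : ℤ_[p]) ≠ 0 := by exact_mod_cast hp.out.ne_zero
  refine false_of_invariant (hg.sub ((p : ℤ_[p]) ^ (k + l + m)))
    (fun a ha x => hfree _ (mul_ne_zero (pow_ne_zero _ hp0) ha) x) (x₀ := x₀) (D := D) (W := W)
    (V := V) (x₂ := x₂) (x' := x') hinv ?_ hVo hVW hVc hx₂S hx₂V hx'S hx'V
  rintro z ⟨hz1, hz2⟩
  have := hWD 0 z hz1 hz2
  rwa [mul_zero, hg.zero] at this

end Pool.Agent.Helper22.LR
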