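import Pool.Agent.Helper22.LR.Main

/-! # Lemma R for subsets; examples of rational sets -/

set_option autoImplicit false

namespace Pool.Agent.Helper22.LR
open Set Filter Topology

variable {p : ℕ} [hp : Fact p.Prime] {V : Type*} [TopologicalSpace V]

theorem Rational.restrict {C T : Set V} (hC : Rational C) :
    Rational (Subtype.val ⁻¹' C : Set T) where
  cl := hC.cl.preimage continuous_subtype_val
  nb := by
    intro x hx U hU
    obtain ⟨U', hU', hUU'⟩ := mem_nhds_subtype T x U |>.1 hU
    obtain ⟨W, hW, hxW, hWU, hc⟩ := hC.nb x hx U' hU'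
    refine ⟨Subtype.val ⁻¹' W, hW.preimage continuous_subtype_val, hxW,
      (preimage_mono hWU).trans hUU', ?_⟩
    refine (hc.preimage Subtype.val_injective).mono ?_
    rintro z ⟨hz1, hz2⟩
    refine ⟨?_, hz2⟩
    rw [← preimage_inter] at hz1
    exact continuous_subtype_val.closure_preimage_subset _ hz1

/-- **Lemma R** for a compact subset `T` of a space `V` -/
theorem isTotallyDisconnected_of_rational [T2Space V] {g : ℤ_[p] → V → V} {T : Set V}
    (hT : IsCompact T) (hcont : ContinuousOn (fun q : ℤ_[p] × V => g q.1 q.2) (univ ×ˢ T))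
    (hmap : ∀ a, ∀ x ∈ T, g a x ∈ T) (h0 : ∀ x ∈ T, g 0 x = x)
    (hadd : ∀ a b, ∀ x ∈ T, g (a + b) x = g a (g b x)) (hfree : ∀ a ≠ 0, ∀ x ∈ T, g a x ≠ x)
    {C : ℕ → Set V} (hC : ∀ i, Rational (C i)) (hcov : T ⊆ ⋃ i, C i) :
    IsTotallyDisconnected T := by
  have : CompactSpace T := isCompact_iff_compactSpace.1 hT
  rw [← totallyDisconnectedSpace_subtype_iff]
  have hA : Act fun (a : ℤ_[p]) (x : T) => (⟨g a x, hmap a x x.2⟩ : T) :=
    { cont := by
        apply Continuous.subtype_mk
        exact hcont.comp_continuous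
          (continuous_fst.prodMk (continuous_subtype_val.comp continuous_snd))
          (fun q => ⟨mem_univ _, q.2.2⟩)
      zero := fun x => Subtype.ext (h0 x x.2)
      add := fun a b x => Subtype.ext (hadd a b x x.2) }
  refine td_of_rational hA (fun a ha x h => hfree a ha x x.2 (congrArg Subtype.val h))
    (C := fun i => Subtype.val ⁻¹' C i) (fun i => (hC i).restrict) ?_
  ext x
  simp only [mem_univ, iff_true]
  obtain ⟨i, hi⟩ := mem_iUnion.1 (hcov x.2)
  exact mem_iUnion.2 ⟨i, hi⟩

/-- closed totally disconnected sets are rational -/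
theorem Rational.of_td [T2Space V] [LocallyCompactSpace V] {C : Set V} (hc : IsClosed C)
    (ht : IsTotallyDisconnected C) : Rational C where
  cl := hc
  nb := by
    intro x hx U hU
    obtain ⟨K, hK, hKU, hKc⟩ := local_compact_nhds hU
    have hCK : IsCompact (C ∩ K) := hKc.inter_left hc
    have : CompactSpace (C ∩ K : Set V) := isCompact_iff_compactSpace.1 hCK
    have : TotallyDisconnectedSpace (C ∩ K : Set V) :=
      totallyDisconnectedSpace_subtype_iff.2 fun t h1 h2 => ht t (h1.trans inter_subset_left) h2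
    have hxK : x ∈ C ∩ K := ⟨hx, mem_of_mem_nhds hK⟩
    have hn : (Subtype.val ⁻¹' interior K : Set (C ∩ K : Set V)) ∈ 𝓝 (⟨x, hxK⟩ : (C ∩ K : Set V)) :=
      (isOpen_interior.preimage continuous_subtype_val).mem_nhds
        (mem_interior_iff_mem_nhds.2 hK)
    obtain ⟨G, ⟨hxG, hG⟩, hGK⟩ := (nhds_basis_clopen (⟨x, hxK⟩ : (C ∩ K : Set V))).mem_iff.1 hn
    obtain ⟨W, hW, hWG⟩ := isOpen_induced_iff.1 hG.2
    have hGc : IsCompact (Subtype.val '' G) := (hG.1.isCompact).image continuous_subtype_val
    -- an open set containing the image of `G` and nothing else of `C`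
    refine ⟨W ∩ interior K, hW.inter isOpen_interior, ⟨?_, mem_interior_iff_mem_nhds.2 hK⟩,
      fun z hz => hKU (interior_subset hz.2), ?_⟩
    · have : (⟨x, hxK⟩ : (C ∩ K : Set V)) ∈ Subtype.val ⁻¹' W := by rw [hWG]; exact hxG
      exact this
    · have e : C ∩ (W ∩ interior K) ⊆ Subtype.val '' G := by
        rintro z ⟨hz1, hz2, hz3⟩
        have hzK : z ∈ C ∩ K := ⟨hz1, interior_subset hz3⟩
        refine ⟨⟨z, hzK⟩, ?_, rfl⟩
        rw [← hWG]; exact hz2
      have e2 : closure (C ∩ (W ∩ interior K)) \ (W ∩ interior K) = ∅ := by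
        rw [eq_empty_iff_forall_notMem]
        rintro z ⟨hz1, hz2⟩
        obtain ⟨y, hy, rfl⟩ := (closure_minimal e hGc.isClosed) hz1
        apply hz2
        refine ⟨?_, hGK hy⟩
        have : y ∈ Subtype.val ⁻¹' W := by rw [hWG]; exact hy
        exact this
      rw [e2]
      exact countable_empty

end Pool.Agent.Helper22.LR
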